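import Pool.Agent.Y293.FA.Stm3
import Pool.Agent.Y293.FA.Base

/-!
# FA2-MEAS: measurability in the pin
-/

set_option autoImplicit false

namespace Pool.Agent.Y210.FA

open Pool.Agent.Y293.FA MeasureTheory Set Metric
open scoped ENNReal

lemma meas_mass (μ : Measure ℂ) [IsProbabilityMeasure μ] (a : ℝ) :
    Measurable fun p : ℂ × ℝ => μ {z | |dist p.1 z - p.2| ≤ a / 2} := by
  have hs : MeasurableSet {q : (ℂ × ℝ) × ℂ | |dist q.1.1 q.2 - q.1.2| ≤ a / 2} := by
    refine measurableSet_le ?_ measurable_const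
    exact (Continuous.abs (by fun_prop)).measurable
  exact measurable_measure_prodMk_left hs

theorem meas : S_MEAS := by
  intro μ _ a b ha hb
  have hd : ∀ x : ℂ, Measurable (dist x) := fun x => (continuous_const.dist continuous_id).measurable
  have e1 : (fun x : ℂ => dd a b (μ.map (dist x))) = fun x => ∫ t, (fun p : ℂ × ℝ =>
      (a⁻¹ * (μ {z | |dist p.1 z - p.2| ≤ a / 2}).toReal -
        b⁻¹ * (μ {z | |dist p.1 z - p.2| ≤ b / 2}).toReal) ^ 2) (x, t) := by
    funext x
    unfold dd
    refine integral_congr_ae (ae_of_all _ fun t => ?_)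
    show (av a (μ.map (dist x)) t - av b (μ.map (dist x)) t) ^ 2 = _
    rw [av_map μ (hd x), av_map μ (hd x)]
    rfl
  rw [e1]
  have hm : Measurable (fun p : ℂ × ℝ =>
      (a⁻¹ * (μ {z | |dist p.1 z - p.2| ≤ a / 2}).toReal -
        b⁻¹ * (μ {z | |dist p.1 z - p.2| ≤ b / 2}).toReal) ^ 2) :=
    (((meas_mass μ a).ennreal_toReal.const_mul _).sub
      ((meas_mass μ b).ennreal_toReal.const_mul _)).pow_const 2
  exact (hm.stronglyMeasurable.integral_prod_right' (ν := volume)).measurable

end Pool.Agent.Y210.FA
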