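import Pool.Agent.Y293.FA.Stm3
import Pool.Agent.H744R2.Falc.Radial
import Pool.Agent.H744R2.Falc.FrostH

/-!
# FA2-RAD: the radial projection lemma and Frostman's lemma in the complex plane
-/

set_option autoImplicit false

namespace Pool.Agent.Y210.FA

open Pool.Agent.Y293.FA Pool.Agent.H744R2.Falc MeasureTheory Set Metric
open scoped ENNReal

noncomputable def phi : ℂ ≃ₗᵢ[ℝ] E2 := Complex.orthonormalBasisOneI.repr

lemma phi0 (z : ℂ) : phi z 0 = z.re := by
  simp [phi, Complex.orthonormalBasisOneI_repr_apply]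

lemma phi1 (z : ℂ) : phi z 1 = z.im := by
  simp [phi, Complex.orthonormalBasisOneI_repr_apply]

lemma phi_tube (w : ℝ) (x y : ℂ) : phi ⁻¹' strip w (phi x) (phi y) = tube w x y := by
  ext z
  show |det2 (phi z - phi x) (phi y - phi x)| ≤ w * ‖phi y - phi x‖ ↔
    |((z - x) * (starRingEnd ℂ) (y - x)).im| ≤ w * ‖y - x‖
  rw [← map_sub phi, ← map_sub phi, phi.norm_map]
  have h : |det2 (phi (z - x)) (phi (y - x))| = |((z - x) * (starRingEnd ℂ) (y - x)).im| := by
    unfold det2
    rw [phi0, phi0, phi1, phi1, ← abs_neg]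
    congr 1
    simp
    ring
  rw [h]

theorem rad : S_RAD := by
  intro μ _ R C s hR hC hs hs2 hF
  have hφ : Measurable phi := phi.continuous.measurable
  let Φ : ℂ ≃ᵐ E2 := phi.toHomeomorph.toMeasurableEquiv
  have hΦ : ∀ z, Φ z = phi z := fun _ => rfl
  have hmap : μ.map phi = μ.map Φ := rfl
  have : IsProbabilityMeasure (μ.map phi) := Measure.isProbabilityMeasure_map hφ.aemeasurable
  have happ : ∀ S : Set E2, (μ.map phi) S = μ (phi ⁻¹' S) := fun S => by
    rw [hmap, Φ.map_apply]
    rfl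
  obtain ⟨C', hC', c, hc, h⟩ := radial_lemma (μ.map phi) R C s
    (by
      rw [ae_iff, happ]
      have h1 := hR
      rw [ae_iff] at h1
      refine measure_mono_null ?_ h1
      intro z hz
      simpa using hz)
    hC hs hs2 (by
      intro x r hr
      rw [happ, phi.preimage_closedBall]
      exact hF _ r hr)
  refine ⟨C', hC', c, hc, fun w hw hw1 M hM => ?_⟩
  refine le_trans (le_of_eq ?_) (h w hw hw1 M hM)
  have hprod : (μ.map phi).prod (μ.map phi) = (μ.prod μ).map (Φ.prodCongr Φ) := by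
    have := Measure.map_prod_map μ μ hφ hφ
    exact this
  rw [hprod, MeasurableEquiv.map_apply]
  congr 1
  ext p
  show ENNReal.ofReal (M * w) < μ (tube w p.1 p.2) ↔
    ENNReal.ofReal (M * w) < (μ.map phi) (strip w (phi p.1) (phi p.2))
  rw [happ, phi_tube]

theorem fro : S_FRO := by
  intro A hA s hs hdim
  have hK : IsCompact (phi '' A) := hA.image phi.continuous
  have hd : ENNReal.ofReal s < dimH (phi '' A) := by
    rw [phi.isometry.dimH_image]
    exact hdim
  obtain ⟨μ', hμ', h0, C, hC, hb⟩ := frostman_dimH 2 (phi '' A) hK s hs hd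
  let Φ : E2 ≃ᵐ ℂ := phi.symm.toHomeomorph.toMeasurableEquiv
  have hmap : μ'.map phi.symm = μ'.map Φ := rfl
  have happ : ∀ S : Set ℂ, (μ'.map phi.symm) S = μ' (phi.symm ⁻¹' S) := fun S => by
    rw [hmap, Φ.map_apply]
    rfl
  refine ⟨μ'.map phi.symm,
    Measure.isProbabilityMeasure_map phi.symm.continuous.measurable.aemeasurable, ?_, C, hC, ?_⟩
  · rw [happ]
    refine measure_mono_null ?_ h0
    intro z hz
    rintro ⟨x, hx, rfl⟩
    apply hz
    show phi.symm (phi x) ∈ A
    rw [phi.symm_apply_apply]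
    exact hx
  · intro x r hr
    rw [happ, phi.symm.preimage_closedBall]
    exact hb _ r hr

end Pool.Agent.Y210.FA
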